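import Pool.Agent.Lib.MP_19d64f_an.T3

/-!
# At most `2^(δ n)` Littlewood polynomials of degree `n` are flat

For `0 < δ ≤ 1` and `0 < ε ≤ exp (-10^9 / δ^4)`, at most `2^(δ n)` of the `2^(n+1)` polynomials of
degree `n ≥ 1` with coefficients `±1` satisfy `| |P| - √(n+1) | ≤ ε √(n+1)` on the unit circle.
-/

set_option autoImplicit false

namespace Pool.Agent.Results.MP_19d64f_an.FewFlat

/-- The sequences `(a_0, ..., a_n)` of signs for which `P(z) = ∑ a_k z^k` satisfies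
`| |P(z)| - √(n+1) | ≤ ε √(n+1)` for all `z` on the unit circle. -/
def flat (n : ℕ) (ε : ℝ) : Set (Fin (n + 1) → ℤ) :=
  {a | (∀ k, a k = 1 ∨ a k = -1) ∧ ∀ z : ℂ, ‖z‖ = 1 →
    |‖∑ k : Fin (n + 1), (a k : ℂ) * z ^ (k : ℕ)‖ - Real.sqrt ((n : ℝ) + 1)| ≤
      ε * Real.sqrt ((n : ℝ) + 1)}

theorem result (δ ε : ℝ) (hδ0 : 0 < δ) (hδ1 : δ ≤ 1) (hε0 : 0 < ε)
    (hε : ε ≤ Real.exp (-(10 ^ 9 / δ ^ 4))) (n : ℕ) (hn : 1 ≤ n) :
    (flat n ε).Finite ∧ ((flat n ε).ncard : ℝ) ≤ (2 : ℝ) ^ (δ * n) := by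
  classical
  have hfin : (flat n ε).Finite := by
    have h1 : (Set.univ.pi (fun _ : Fin (n + 1) => ({1, -1} : Set ℤ))).Finite :=
      Set.Finite.pi fun _ => Set.toFinite _
    refine h1.subset fun a ha => ?_
    intro k _
    rcases ha.1 k with h | h <;> simp [h]
  refine ⟨hfin, ?_⟩
  set y : ℝ := (1 / δ) ^ ((1 : ℝ) / 3) with hy
  have hd1 : 1 ≤ 1 / δ := by rwa [le_div_iff₀ hδ0, one_mul]
  have hy1 : 1 ≤ y := Real.one_le_rpow hd1 (by norm_num)
  have hy3 : y ^ 3 = 1 / δ := by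
    rw [hy, ← Real.rpow_natCast, ← Real.rpow_mul (by positivity)]
    norm_num
  have hy12 : y ^ 12 = 1 / δ ^ 4 := by
    have : y ^ 12 = (y ^ 3) ^ 4 := by ring
    rw [this, hy3, one_div_pow]
  have h := Lib.MP_19d64f_an.few (y := y) (n := n) hy1 hε0 (by
    rw [hy12]
    refine hε.trans (le_of_eq ?_)
    congr 2
    ring) hn hfin.toFinset (by
    intro b hb
    have hb' : b ∈ flat n ε := hfin.mem_toFinset.1 hb
    refine ⟨hb'.1, fun t => ?_⟩
    have h1 := hb'.2 (Complex.exp ((t : ℂ) * Complex.I)) (Complex.norm_exp_ofReal_mul_I t)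
    have h2 : Lib.MP_19d64f_an.P (Lib.MP_19d64f_an.ext b) n t =
        ∑ k : Fin (n + 1), (b k : ℂ) * Complex.exp ((t : ℂ) * Complex.I) ^ (k : ℕ) := by
      unfold Lib.MP_19d64f_an.P
      rw [Finset.sum_range]
      refine Finset.sum_congr rfl fun k _ => ?_
      rw [Lib.MP_19d64f_an.exp_nat]
      unfold Lib.MP_19d64f_an.ext
      rw [dif_pos k.2]
      push_cast
      rfl
    rw [h2]
    exact h1)
  rw [← Set.ncard_eq_toFinset_card (flat n ε) hfin] at h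
  refine h.trans (le_of_eq ?_)
  rw [hy3, Real.rpow_def_of_pos (by norm_num)]
  congr 1
  field_simp

end Pool.Agent.Results.MP_19d64f_an.FewFlat
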