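import Pool.Agent.Lib.MP_19d64f_an.T2

/-!
# The frequencies of flat Littlewood polynomials fill the phase space

For every arc `(α, β)` of the unit circle and every band `(u, v) ⊆ [0, 1]` there is `δ > 0` such that
for every polynomial `P` of degree `n ≥ 1` with coefficients `±1` and
`| |P| - √(n+1) | ≤ δ √(n+1)` on the unit circle, the frequency `Re (z P'(z) / P(z))`, `z = e^{it}`,
is in `(u n, v n)` on a subset of the arc of measure at least `δ`.
-/

set_option autoImplicit false

namespace Pool.Agent.Results.MP_19d64f_an.FrequencyDense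

open MeasureTheory

theorem result (α β u v : ℝ) (hα : 0 ≤ α) (hαβ : α < β) (hβ : β ≤ 2 * Real.pi) (hu : 0 ≤ u)
    (huv : u < v) (hv : v ≤ 1) :
    ∃ δ : ℝ, 0 < δ ∧ ∀ (n : ℕ) (P : Polynomial ℂ), 1 ≤ n → P.natDegree = n →
      (∀ k ≤ n, P.coeff k = 1 ∨ P.coeff k = -1) →
      (∀ z : ℂ, ‖z‖ = 1 →
        |‖P.eval z‖ - Real.sqrt ((n : ℝ) + 1)| ≤ δ * Real.sqrt ((n : ℝ) + 1)) →
      ENNReal.ofReal δ ≤ volume {t : ℝ | α < t ∧ t < β ∧
        u * n < (Complex.exp ((t : ℂ) * Complex.I) *
          (Polynomial.derivative P).eval (Complex.exp ((t : ℂ) * Complex.I)) /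
            P.eval (Complex.exp ((t : ℂ) * Complex.I))).re ∧
        (Complex.exp ((t : ℂ) * Complex.I) *
          (Polynomial.derivative P).eval (Complex.exp ((t : ℂ) * Complex.I)) /
            P.eval (Complex.exp ((t : ℂ) * Complex.I))).re < v * n} := by
  obtain ⟨δ, hδ, h⟩ := Lib.MP_19d64f_an.dense hα hαβ hβ hu huv hv
  refine ⟨δ, hδ, fun n P hn hdeg hco hfl => ?_⟩
  classical
  set a : ℕ → ℝ := fun k => if k ≤ n then (P.coeff k).re else 1 with ha
  have haL : Lib.MP_19d64f_an.Lit a := by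
    intro k
    simp only [ha]
    split_ifs with hk
    · rcases hco k hk with h1 | h1 <;> rw [h1] <;> simp
    · exact Or.inl rfl
  have hpol : Lib.MP_19d64f_an.pol a n = P := by
    refine Polynomial.ext fun k => ?_
    by_cases hk : k ≤ n
    · rw [Lib.MP_19d64f_an.coeff_pol a n k hk]
      simp only [ha]
      rw [if_pos hk]
      rcases hco k hk with h1 | h1 <;> rw [h1] <;> simp
    · rw [Polynomial.coeff_eq_zero_of_natDegree_lt (by omega : P.natDegree < k)]
      exact Polynomial.coeff_eq_zero_of_natDegree_lt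
        (lt_of_le_of_lt (Lib.MP_19d64f_an.natDegree_pol_le a n) (by omega))
  have hflat : Lib.MP_19d64f_an.Flat a n δ := by
    intro t
    rw [← Lib.MP_19d64f_an.eval_pol_exp, hpol]
    exact hfl _ (Complex.norm_exp_ofReal_mul_I t)
  have h1 := h n a hn haL hflat
  refine h1.trans (le_of_eq ?_)
  congr 1
  ext t
  have h2 : Lib.MP_19d64f_an.om a n t = (Complex.exp ((t : ℂ) * Complex.I) *
          (Polynomial.derivative P).eval (Complex.exp ((t : ℂ) * Complex.I)) /
            P.eval (Complex.exp ((t : ℂ) * Complex.I))).re := by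
    unfold Lib.MP_19d64f_an.om
    rw [← Lib.MP_19d64f_an.eval_der_exp, ← Lib.MP_19d64f_an.eval_pol_exp, hpol]
  simp only [Set.mem_setOf_eq, h2]

end Pool.Agent.Results.MP_19d64f_an.FrequencyDense
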