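import Pool.Agent.Lib.MP_19d64f_an.T1b
import Pool.Agent.Lib.MP_19d64f_an.A5

/-!
# Littlewood polynomials close to `√(n+1) e^{iϕ}`: the phase has large variation

If a polynomial `P` of degree `n` with coefficients `±1` satisfies
`mean |P(e^{it}) / √(n+1) - e^{iϕ(t)}|^2 ≤ ε^2` for some `C^2` phase `ϕ`, then the total variation
of the frequency `ϕ'` is at least `n (log (1/ε) / 266 - 5)`.
-/

set_option autoImplicit false

namespace Pool.Agent.Results.MP_19d64f_an.FrequencyVariation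

open Finset

/-- The value at `z` of the polynomial of degree `n` with coefficients `a 0, ..., a n`. -/
noncomputable def val (a : ℕ → ℝ) (n : ℕ) (z : ℂ) : ℂ := ∑ k ∈ range (n + 1), (a k : ℂ) * z ^ k

theorem result (n : ℕ) (a : ℕ → ℝ) (ε : ℝ) (ϕ : ℝ → ℝ) (d : ℤ) (hn : 1 ≤ n)
    (ha : ∀ k ≤ n, a k = 1 ∨ a k = -1) (hε : 0 < ε)
    (hϕ : ContDiff ℝ 2 ϕ) (hper : ∀ t, ϕ (t + 2 * Real.pi) = ϕ t + 2 * Real.pi * d)
    (hclose : (1 / (2 * Real.pi)) * (∫ t in (0 : ℝ)..(2 * Real.pi),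
      ‖val a n (Complex.exp ((t : ℂ) * Complex.I)) / ((Real.sqrt ((n : ℝ) + 1) : ℝ) : ℂ) -
        Complex.exp ((ϕ t : ℂ) * Complex.I)‖ ^ 2) ≤ ε ^ 2) :
    n * (Real.log (1 / ε) / 266 - 5) ≤
      ∫ t in (0 : ℝ)..(2 * Real.pi), |deriv (deriv ϕ) t| := by
  classical
  set b : ℕ → ℝ := fun k => if k ≤ n then a k else 1 with hb
  have hbL : Lib.MP_19d64f_an.Lit b := by
    intro k
    simp only [hb]
    split_ifs with h
    · exact ha k h
    · exact Or.inl rfl
  have hexp : ∀ (k : ℕ) (t : ℝ), Complex.exp ((k : ℂ) * (t : ℂ) * Complex.I) =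
      Complex.exp ((t : ℂ) * Complex.I) ^ k := by
    intro k t
    rw [← Complex.exp_nat_mul]
    congr 1
    ring
  have hP : ∀ t, Lib.MP_19d64f_an.P b n t = val a n (Complex.exp ((t : ℂ) * Complex.I)) := by
    intro t
    unfold Lib.MP_19d64f_an.P val
    refine Finset.sum_congr rfl fun k hk => ?_
    have hk' : k ≤ n := by
      have := Finset.mem_range.1 hk
      omega
    simp only [hb]
    rw [if_pos hk', hexp]
  have hpi : (0 : ℝ) < 2 * Real.pi := by positivity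
  have hcl : ∫ t in (0 : ℝ)..(2 * Real.pi),
      ‖Lib.MP_19d64f_an.P b n t / ((Real.sqrt ((n : ℝ) + 1) : ℝ) : ℂ) -
        Complex.exp ((ϕ t : ℂ) * Complex.I)‖ ^ 2 ≤ 2 * Real.pi * ε ^ 2 := by
    simp_rw [hP]
    rw [one_div, inv_mul_le_iff₀ hpi] at hclose
    exact hclose
  have h := Lib.MP_19d64f_an.apx_of_L2 hbL hε hϕ d hper hcl
  exact Lib.MP_19d64f_an.final hbL h hε hn

end Pool.Agent.Results.MP_19d64f_an.FrequencyVariation
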